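import Mathlib

/-!
# MP_6e521b_an: the Fourier–Borel map `Φ_P` is bijective for coprime binomials `P = p z^β + q z^γ`

Entire functions on `ℂ^n` are represented by the families of their Taylor coefficients.

Idea of the proof. `(P · H)^⊥` corresponds under the Fourier–Borel transform to
`Ker P(D) ∩ Exp`, so one has to solve `P(D)(P^* g) = h` in `Exp(ℂ^n)` and to show that the solution
is unique. In the basis `z^α / α!` the operator `P(D) P^*` has the row `α` with diagonal entry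
`|p|² (α+β)!/α! + |q|² (α+γ)!/α!` and the two other entries `p \bar q α!/(α-γ)!` (at `α-γ+β`) and
`q \bar p α!/(α-β)!` (at `α-β+γ`). It is diagonally dominant with respect to all weights `w^α` with
`|p| w^β = |q| w^γ`, and such `w` can be chosen with all coordinates as large as one likes. This is
exactly what is needed in `Exp(ℂ^n)`.
-/

set_option autoImplicit false

namespace Pool.Agent.Results.MP_6e521b_an.CoprimeBinomials

open Filter Topology

/-! ### Diagonally dominant systems -/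

section dominance

variable {ι : Type} (d : ι → ℝ) (c₁ c₂ : ι → ℂ) (σ τ : ι → ι) (h : ι → ℂ)

noncomputable def itG : ℕ → ι → ℂ
  | 0 => fun _ => 0
  | k + 1 => fun α => (h α - c₁ α * itG k (σ α) - c₂ α * itG k (τ α)) / (d α : ℂ)

noncomputable def itR : ℕ → ι → ℝ
  | 0 => fun _ => 0
  | k + 1 => fun α => (‖h α‖ + ‖c₁ α‖ * itR k (σ α) + ‖c₂ α‖ * itR k (τ α)) / d α

theorem solve (W : ι → ℝ) (hW : ∀ α, 0 < W α) (m : ℝ) (hm : 0 < m)
    (hdom : ∀ α, ‖c₁ α‖ * W (σ α) + ‖c₂ α‖ * W (τ α) + m * W α ≤ d α * W α)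
    (M : ℝ) (hM : 0 ≤ M) (hh : ∀ α, ‖h α‖ ≤ M * (m * W α)) :
    ∃ g : ι → ℂ, (∀ α, ‖g α‖ ≤ M * W α) ∧
      ∀ α, (d α : ℂ) * g α + c₁ α * g (σ α) + c₂ α * g (τ α) = h α := by
  have hd : ∀ α, 0 < d α := by
    intro α
    have h1 := hdom α
    have h2 : 0 ≤ ‖c₁ α‖ * W (σ α) := mul_nonneg (norm_nonneg _) (hW _).le
    have h3 : 0 ≤ ‖c₂ α‖ * W (τ α) := mul_nonneg (norm_nonneg _) (hW _).le
    have h4 : m * W α ≤ d α * W α := by linarith
    have h5 : m ≤ d α := le_of_mul_le_mul_right h4 (hW α)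
    linarith
  have hnd : ∀ α, ‖(d α : ℂ)‖ = d α := fun α => by
    rw [Complex.norm_real, Real.norm_of_nonneg (hd α).le]
  have hR : ∀ k α, itR d c₁ c₂ σ τ h k α ≤ M * W α := by
    intro k
    induction k with
    | zero => intro α; exact mul_nonneg hM (hW α).le
    | succ k ih =>
      intro α
      show (‖h α‖ + ‖c₁ α‖ * itR d c₁ c₂ σ τ h k (σ α) + ‖c₂ α‖ * itR d c₁ c₂ σ τ h k (τ α)) / d α ≤ _
      rw [div_le_iff₀ (hd α)]
      have h1 := mul_le_mul_of_nonneg_left (ih (σ α)) (norm_nonneg (c₁ α))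
      have h2 := mul_le_mul_of_nonneg_left (ih (τ α)) (norm_nonneg (c₂ α))
      have h3 := mul_le_mul_of_nonneg_left (hdom α) hM
      have h4 := hh α
      nlinarith
  have hGR : ∀ k α, ‖itG d c₁ c₂ σ τ h k α‖ ≤ itR d c₁ c₂ σ τ h k α := by
    intro k
    induction k with
    | zero => intro α; simp [itG, itR]
    | succ k ih =>
      intro α
      show ‖(h α - c₁ α * itG d c₁ c₂ σ τ h k (σ α) - c₂ α * itG d c₁ c₂ σ τ h k (τ α)) / (d α : ℂ)‖ ≤
        (‖h α‖ + ‖c₁ α‖ * itR d c₁ c₂ σ τ h k (σ α) + ‖c₂ α‖ * itR d c₁ c₂ σ τ h k (τ α)) / d α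
      rw [norm_div, hnd]
      apply div_le_div_of_nonneg_right _ (hd α).le
      refine (norm_sub_le _ _).trans (add_le_add ((norm_sub_le _ _).trans (add_le_add le_rfl ?_)) ?_)
      · rw [norm_mul]; exact mul_le_mul_of_nonneg_left (ih _) (norm_nonneg _)
      · rw [norm_mul]; exact mul_le_mul_of_nonneg_left (ih _) (norm_nonneg _)
  have hdiff : ∀ k α, ‖itG d c₁ c₂ σ τ h (k + 1) α - itG d c₁ c₂ σ τ h k α‖ ≤
      itR d c₁ c₂ σ τ h (k + 1) α - itR d c₁ c₂ σ τ h k α := by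
    intro k
    induction k with
    | zero => intro α; simpa [itG, itR] using hGR 1 α
    | succ k ih =>
      intro α
      have e1 : itG d c₁ c₂ σ τ h (k + 1 + 1) α - itG d c₁ c₂ σ τ h (k + 1) α =
          (-(c₁ α * (itG d c₁ c₂ σ τ h (k + 1) (σ α) - itG d c₁ c₂ σ τ h k (σ α))) -
            c₂ α * (itG d c₁ c₂ σ τ h (k + 1) (τ α) - itG d c₁ c₂ σ τ h k (τ α))) / (d α : ℂ) := by
        show (h α - c₁ α * itG d c₁ c₂ σ τ h (k+1) (σ α) - c₂ α * itG d c₁ c₂ σ τ h (k+1) (τ α)) / (d α : ℂ)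
          - (h α - c₁ α * itG d c₁ c₂ σ τ h k (σ α) - c₂ α * itG d c₁ c₂ σ τ h k (τ α)) / (d α : ℂ) = _
        ring
      have e2 : itR d c₁ c₂ σ τ h (k + 1 + 1) α - itR d c₁ c₂ σ τ h (k + 1) α =
          (‖c₁ α‖ * (itR d c₁ c₂ σ τ h (k + 1) (σ α) - itR d c₁ c₂ σ τ h k (σ α)) +
            ‖c₂ α‖ * (itR d c₁ c₂ σ τ h (k + 1) (τ α) - itR d c₁ c₂ σ τ h k (τ α))) / d α := by
        show (‖h α‖ + ‖c₁ α‖ * itR d c₁ c₂ σ τ h (k+1) (σ α) + ‖c₂ α‖ * itR d c₁ c₂ σ τ h (k+1) (τ α)) / d α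
          - (‖h α‖ + ‖c₁ α‖ * itR d c₁ c₂ σ τ h k (σ α) + ‖c₂ α‖ * itR d c₁ c₂ σ τ h k (τ α)) / d α = _
        ring
      rw [e1, e2, norm_div, hnd]
      apply div_le_div_of_nonneg_right _ (hd α).le
      refine (norm_sub_le _ _).trans (add_le_add ?_ ?_)
      · rw [norm_neg, norm_mul]; exact mul_le_mul_of_nonneg_left (ih _) (norm_nonneg _)
      · rw [norm_mul]; exact mul_le_mul_of_nonneg_left (ih _) (norm_nonneg _)
  have hlim : ∀ α, ∃ l, Tendsto (fun k => itG d c₁ c₂ σ τ h k α) atTop (𝓝 l) := by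
    intro α
    apply cauchySeq_tendsto_of_complete
    apply cauchySeq_of_dist_le_of_summable
      (fun k => itR d c₁ c₂ σ τ h (k + 1) α - itR d c₁ c₂ σ τ h k α)
    · intro k
      rw [dist_comm, dist_eq_norm]
      exact hdiff k α
    · apply summable_of_sum_range_le (c := M * W α)
      · intro k
        exact (norm_nonneg _).trans (hdiff k α)
      · intro k
        rw [Finset.sum_range_sub (fun k => itR d c₁ c₂ σ τ h k α)]
        have : itR d c₁ c₂ σ τ h 0 α = 0 := rfl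
        rw [this, sub_zero]
        exact hR k α
  choose g hg using hlim
  refine ⟨g, fun α => ?_, fun α => ?_⟩
  · exact le_of_tendsto (hg α).norm (Eventually.of_forall fun k => (hGR k α).trans (hR k α))
  · have h1 : Tendsto (fun k => itG d c₁ c₂ σ τ h (k + 1) α) atTop (𝓝 (g α)) :=
      (hg α).comp (tendsto_add_atTop_nat 1)
    have h2 : Tendsto (fun k => itG d c₁ c₂ σ τ h (k + 1) α) atTop
        (𝓝 ((h α - c₁ α * g (σ α) - c₂ α * g (τ α)) / (d α : ℂ))) := by
      show Tendsto (fun k => (h α - c₁ α * itG d c₁ c₂ σ τ h k (σ α) -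
        c₂ α * itG d c₁ c₂ σ τ h k (τ α)) / (d α : ℂ)) atTop _
      exact ((tendsto_const_nhds.sub ((hg (σ α)).const_mul _)).sub ((hg (τ α)).const_mul _)).div_const _
    have h3 := tendsto_nhds_unique h1 h2
    have h4 : (d α : ℂ) ≠ 0 := by exact_mod_cast (hd α).ne'
    rw [eq_div_iff h4] at h3
    linear_combination h3

theorem unique (W : ι → ℝ) (hW : ∀ α, 0 < W α) (m : ℝ) (hm : 0 < m)
    (hdom : ∀ α, ‖c₁ α‖ * W (σ α) + ‖c₂ α‖ * W (τ α) + m * W α ≤ d α * W α)
    (g : ι → ℂ) (hfin : ∀ ε : ℝ, 0 < ε → {α | ε ≤ ‖g α‖ / W α}.Finite)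
    (hg : ∀ α, (d α : ℂ) * g α + c₁ α * g (σ α) + c₂ α * g (τ α) = 0) : g = 0 := by
  by_contra hne
  obtain ⟨α₀, h0⟩ : ∃ α, g α ≠ 0 := by
    by_contra hcon
    push Not at hcon
    exact hne (funext hcon)
  set ε := ‖g α₀‖ / W α₀ with hε
  have hεpos : 0 < ε := div_pos (norm_pos_iff.2 h0) (hW _)
  obtain ⟨α, hα, hmax⟩ := Set.exists_max_image {α | ε ≤ ‖g α‖ / W α} (fun α => ‖g α‖ / W α)
    (hfin ε hεpos) ⟨α₀, by show ε ≤ ‖g α₀‖ / W α₀; exact hε.le⟩
  set ρ := ‖g α‖ / W α with hρ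
  have hρε : ε ≤ ρ := hα
  have hall : ∀ x, ‖g x‖ ≤ ρ * W x := by
    intro x
    rw [← div_le_iff₀ (hW x)]
    rcases le_or_gt ε (‖g x‖ / W x) with hx | hx
    · exact hmax x hx
    · exact hx.le.trans hρε
  have heq : ‖g α‖ = ρ * W α := by
    rw [hρ, div_mul_cancel₀ _ (hW α).ne']
  have h1 : ‖(d α : ℂ) * g α‖ ≤ ‖c₁ α‖ * ‖g (σ α)‖ + ‖c₂ α‖ * ‖g (τ α)‖ := by
    have e : (d α : ℂ) * g α = -(c₁ α * g (σ α)) - c₂ α * g (τ α) := by
      linear_combination hg α
    rw [e]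
    refine (norm_sub_le _ _).trans ?_
    rw [norm_neg, norm_mul, norm_mul]
  rw [norm_mul, Complex.norm_real] at h1
  have h2 : d α ≤ ‖d α‖ := Real.le_norm_self _
  have h3 := mul_le_mul_of_nonneg_left (hall (σ α)) (norm_nonneg (c₁ α))
  have h4 := mul_le_mul_of_nonneg_left (hall (τ α)) (norm_nonneg (c₂ α))
  have h5 := mul_le_mul_of_nonneg_left (hdom α) (hεpos.le.trans hρε)
  have h6 : d α * ‖g α‖ ≤ ‖d α‖ * ‖g α‖ := mul_le_mul_of_nonneg_right h2 (norm_nonneg _)
  rw [heq] at h6 h1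
  have h7 : 0 < ρ * (m * W α) := mul_pos (lt_of_lt_of_le hεpos hρε) (mul_pos hm (hW α))
  nlinarith

end dominance

/-! ### Multi-indices -/

section indices

variable {n : ℕ}

/-- Multi-indices. -/
abbrev Idx (n : ℕ) : Type := Fin n → ℕ

/-- `|α| = α_1 + ⋯ + α_n`. -/
def deg (α : Idx n) : ℕ := ∑ i, α i

/-- `α! = α_1! ⋯ α_n!`. -/
def fac (α : Idx n) : ℕ := ∏ i, (α i).factorial

/-- `α! / (α - β)!` if `β ≤ α`, and `0` otherwise -/
def dsc (α β : Idx n) : ℕ := ∏ i, (α i).descFactorial (β i)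

theorem fac_pos (α : Idx n) : 0 < fac α := Finset.prod_pos fun _ _ => Nat.factorial_pos _

theorem dsc_zero {α β : Idx n} (h : ¬ β ≤ α) : dsc α β = 0 := by
  rw [Pi.le_def] at h
  push Not at h
  obtain ⟨i, hi⟩ := h
  exact Finset.prod_eq_zero (Finset.mem_univ i) (Nat.descFactorial_of_lt hi)

theorem fac_sub {α β : Idx n} (h : β ≤ α) : fac (α - β) * dsc α β = fac α := by
  unfold fac dsc
  rw [← Finset.prod_mul_distrib]
  exact Finset.prod_congr rfl fun i _ => Nat.factorial_mul_descFactorial (h i)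

theorem fac_add (α β : Idx n) : fac α * dsc (α + β) β = fac (α + β) := by
  have h : β ≤ α + β := le_add_self
  have := fac_sub h
  rwa [add_tsub_cancel_right] at this

theorem desc_lt (a b : ℕ) (hb : b ≠ 0) : a.descFactorial b + 1 ≤ (a + b).descFactorial b := by
  have h1 : a.descFactorial b ≤ a ^ b := Nat.descFactorial_le_pow a b
  have h2 : (a + 1) ^ b ≤ (a + 1).ascFactorial b := Nat.pow_succ_le_ascFactorial (a + 1) b
  have h3 : (a + b).descFactorial b = (a + 1).ascFactorial b := Nat.add_descFactorial_eq_ascFactorial a b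
  have h4 : a ^ b < (a + 1) ^ b := Nat.pow_lt_pow_left (Nat.lt_succ_self a) hb
  omega

theorem desc_le (a b : ℕ) : a.descFactorial b ≤ (a + b).descFactorial b := by
  rcases Nat.eq_zero_or_pos b with h | h
  · subst h; simp
  · have := desc_lt a b (by omega); omega

theorem desc_pos (a b : ℕ) : 1 ≤ (a + b).descFactorial b :=
  Nat.descFactorial_pos.2 (by omega)

theorem dsc_lt (α β : Idx n) (hβ : β ≠ 0) : dsc α β + 1 ≤ dsc (α + β) β := by
  obtain ⟨i, hi⟩ : ∃ i, β i ≠ 0 := by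
    by_contra hcon
    push Not at hcon
    exact hβ (funext hcon)
  unfold dsc
  rw [← Finset.mul_prod_erase _ _ (Finset.mem_univ i), ← Finset.mul_prod_erase (Finset.univ)
    (fun j => ((α + β) j).descFactorial (β j)) (Finset.mem_univ i)]
  have h1 := desc_lt (α i) (β i) hi
  have h2 : ∏ j ∈ Finset.univ.erase i, (α j).descFactorial (β j) ≤
      ∏ j ∈ Finset.univ.erase i, ((α + β) j).descFactorial (β j) :=
    Finset.prod_le_prod' fun j _ => desc_le _ _
  have h3 : 1 ≤ ∏ j ∈ Finset.univ.erase i, ((α + β) j).descFactorial (β j) :=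
    Finset.one_le_prod' fun j _ => desc_pos _ _
  have h4 : ((α + β) i).descFactorial (β i) = (α i + β i).descFactorial (β i) := rfl
  rw [h4]
  generalize (α i).descFactorial (β i) = a at *
  generalize (α i + β i).descFactorial (β i) = b at *
  generalize ∏ j ∈ Finset.univ.erase i, (α j).descFactorial (β j) = x at *
  generalize ∏ j ∈ Finset.univ.erase i, ((α + β) j).descFactorial (β j) = y at *
  nlinarith [Nat.mul_le_mul h1 h2, Nat.mul_le_mul_left a h2]

theorem dsc_disj (α β γ : Idx n) (h : ∀ i, β i = 0 ∨ γ i = 0) : dsc (α + β) γ = dsc α γ := by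
  unfold dsc
  refine Finset.prod_congr rfl fun i _ => ?_
  rcases h i with h | h
  · simp [h]
  · simp [h]

/-- `w^α` -/
noncomputable def mon (w : Fin n → ℝ) (α : Idx n) : ℝ := ∏ i, w i ^ α i

theorem mon_pos {w : Fin n → ℝ} (hw : ∀ i, 0 < w i) (α : Idx n) : 0 < mon w α :=
  Finset.prod_pos fun i _ => pow_pos (hw i) _

theorem mon_add (w : Fin n → ℝ) (α β : Idx n) : mon w (α + β) = mon w α * mon w β := by
  unfold mon
  rw [← Finset.prod_mul_distrib]
  exact Finset.prod_congr rfl fun i _ => pow_add _ _ _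

theorem mon_sub (w : Fin n → ℝ) {α β : Idx n} (h : β ≤ α) : mon w (α - β) * mon w β = mon w α := by
  rw [← mon_add, tsub_add_cancel_of_le h]

theorem pow_le_mon {w : Fin n → ℝ} {B : ℝ} (hB : 0 ≤ B) (hw : ∀ i, B ≤ w i) (α : Idx n) :
    B ^ deg α ≤ mon w α := by
  unfold deg mon
  rw [← Finset.prod_pow_eq_pow_sum]
  exact Finset.prod_le_prod (fun i _ => pow_nonneg hB _) fun i _ => pow_le_pow_left₀ hB (hw i) _

theorem exists_weights (β γ : Idx n) (hβ : β ≠ 0) (hγ : γ ≠ 0) (hd : ∀ i, β i = 0 ∨ γ i = 0)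
    (p q : ℝ) (hp : 0 < p) (hq : 0 < q) (B : ℝ) (hB : 1 ≤ B) :
    ∃ w : Fin n → ℝ, (∀ i, B ≤ w i) ∧ p * mon w β = q * mon w γ := by
  have hpos : ∀ β : Idx n, β ≠ 0 → deg β ≠ 0 := by
    intro β hβ h
    apply hβ
    funext i
    unfold deg at h
    rw [Finset.sum_eq_zero_iff] at h
    exact h i (Finset.mem_univ i)
  have hb := hpos β hβ
  have hg := hpos γ hγ
  set y : ℝ := max B (p * B ^ deg β / q) with hy
  have hyB : B ≤ y := le_max_left _ _
  have hy1 : 1 ≤ y := hB.trans hyB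
  have hyq : p * B ^ deg β ≤ q * y ^ deg γ := by
    have h1 : p * B ^ deg β / q ≤ y := le_max_right _ _
    rw [div_le_iff₀ hq] at h1
    have h2 : y ≤ y ^ deg γ := le_self_pow₀ hy1 hg
    nlinarith
  set x : ℝ := (q * y ^ deg γ / p) ^ ((deg β : ℝ)⁻¹) with hx
  have hz : B ^ deg β ≤ q * y ^ deg γ / p := by
    rw [le_div_iff₀ hp]; linarith
  have hz0 : 0 ≤ q * y ^ deg γ / p := (pow_nonneg (by linarith) _).trans hz
  have hxp : x ^ deg β = q * y ^ deg γ / p := Real.rpow_inv_natCast_pow hz0 hb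
  have hxB : B ≤ x := by
    have h1 : (B ^ deg β) ^ ((deg β : ℝ)⁻¹) ≤ x :=
      Real.rpow_le_rpow (pow_nonneg (by linarith) _) hz (by positivity)
    rwa [Real.pow_rpow_inv_natCast (by linarith) hb] at h1
  refine ⟨fun i => if β i ≠ 0 then x else y, ?_, ?_⟩
  · intro i
    by_cases h : β i ≠ 0
    · simp [h, hxB]
    · simp [h, hyB]
  · have e1 : mon (fun i => if β i ≠ 0 then x else y) β = x ^ deg β := by
      unfold mon deg
      rw [← Finset.prod_pow_eq_pow_sum]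
      refine Finset.prod_congr rfl fun i _ => ?_
      by_cases h : β i ≠ 0
      · simp [h]
      · push Not at h; simp [h]
    have e2 : mon (fun i => if β i ≠ 0 then x else y) γ = y ^ deg γ := by
      unfold mon deg
      rw [← Finset.prod_pow_eq_pow_sum]
      refine Finset.prod_congr rfl fun i _ => ?_
      rcases hd i with h | h
      · simp [h]
      · simp [h]
    rw [e1, e2, hxp]
    field_simp

end indices

/-! ### The operator `g ↦ P(D)(P^* g)` for a binomial `P` in the basis `z^α / α!` -/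

section core

variable {n : ℕ}

theorem add_sub_disj (α β γ : Idx n) (h : ∀ i, β i = 0 ∨ γ i = 0) : α + β - γ = α - γ + β := by
  funext i
  show α i + β i - γ i = α i - γ i + β i
  rcases h i with h | h <;> omega

theorem mon_le_pow {w : Fin n → ℝ} {B : ℝ} (hw0 : ∀ i, 0 ≤ w i) (hw : ∀ i, w i ≤ B) (α : Idx n) :
    mon w α ≤ B ^ deg α := by
  unfold deg mon
  rw [← Finset.prod_pow_eq_pow_sum]
  exact Finset.prod_le_prod (fun i _ => pow_nonneg (hw0 i) _)
    fun i _ => pow_le_pow_left₀ (hw0 i) (hw i) _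

/-- multiplication by `P^* = \bar p z^β + \bar q z^γ` in the basis `z^α / α!` -/
noncomputable def mulD (p q : ℂ) (β γ : Idx n) (g : Idx n → ℂ) (α : Idx n) : ℂ :=
  starRingEnd ℂ p * (dsc α β * g (α - β)) + starRingEnd ℂ q * (dsc α γ * g (α - γ))

noncomputable def dg (p q : ℂ) (β γ α : Idx n) : ℝ :=
  ‖p‖ ^ 2 * dsc (α + β) β + ‖q‖ ^ 2 * dsc (α + γ) γ

noncomputable def c1 (p q : ℂ) (γ α : Idx n) : ℂ := p * starRingEnd ℂ q * dsc α γ

theorem mul_conj_norm (p : ℂ) : p * starRingEnd ℂ p = ((‖p‖ ^ 2 : ℝ) : ℂ) := by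
  rw [Complex.mul_conj, Complex.normSq_eq_norm_sq]

theorem apply_eq (p q : ℂ) (β γ : Idx n) (h : ∀ i, β i = 0 ∨ γ i = 0) (g : Idx n → ℂ)
    (α : Idx n) :
    p * mulD p q β γ g (α + β) + q * mulD p q β γ g (α + γ) =
      (dg p q β γ α : ℂ) * g α + c1 p q γ α * g (α - γ + β) + c1 q p β α * g (α - β + γ) := by
  have h' : ∀ i, γ i = 0 ∨ β i = 0 := fun i => (h i).symm
  unfold mulD dg c1
  rw [dsc_disj α β γ h, dsc_disj α γ β h', add_sub_disj α β γ h, add_sub_disj α γ β h',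
    add_tsub_cancel_right, add_tsub_cancel_right]
  push_cast
  have hp := mul_conj_norm p
  have hq := mul_conj_norm q
  push_cast at hp hq
  linear_combination (dsc (α + β) β * g α) * hp + (dsc (α + γ) γ * g α) * hq

theorem norm_c1 (p q : ℂ) (γ α : Idx n) : ‖c1 p q γ α‖ = ‖p‖ * ‖q‖ * dsc α γ := by
  unfold c1
  rw [norm_mul, norm_mul, RCLike.norm_conj]
  simp

theorem c1_mon (p q : ℂ) (β γ : Idx n) (w : Fin n → ℝ)
    (hpq : ‖p‖ * mon w β = ‖q‖ * mon w γ) (α : Idx n) :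
    ‖c1 p q γ α‖ * mon w (α - γ + β) = ‖q‖ ^ 2 * dsc α γ * mon w α := by
  rw [norm_c1]
  by_cases h : γ ≤ α
  · rw [mon_add, ← mon_sub w h]
    linear_combination (‖q‖ * dsc α γ * mon w (α - γ)) * hpq
  · rw [dsc_zero h]; simp

theorem dominance (p q : ℂ) (β γ : Idx n) (hβ : β ≠ 0) (hγ : γ ≠ 0) (w : Fin n → ℝ)
    (hw : ∀ i, 0 < w i) (hpq : ‖p‖ * mon w β = ‖q‖ * mon w γ) (α : Idx n) :
    ‖c1 p q γ α‖ * mon w (α - γ + β) + ‖c1 q p β α‖ * mon w (α - β + γ) +
      (‖p‖ ^ 2 + ‖q‖ ^ 2) * mon w α ≤ dg p q β γ α * mon w α := by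
  rw [c1_mon p q β γ w hpq, c1_mon q p γ β w hpq.symm]
  have h1 : (dsc α β : ℝ) + 1 ≤ dsc (α + β) β := by exact_mod_cast dsc_lt α β hβ
  have h2 : (dsc α γ : ℝ) + 1 ≤ dsc (α + γ) γ := by exact_mod_cast dsc_lt α γ hγ
  have h3 : ‖q‖ ^ 2 * dsc α γ + ‖p‖ ^ 2 * dsc α β + (‖p‖ ^ 2 + ‖q‖ ^ 2) ≤ dg p q β γ α := by
    unfold dg
    nlinarith [mul_le_mul_of_nonneg_left h1 (sq_nonneg ‖p‖),
      mul_le_mul_of_nonneg_left h2 (sq_nonneg ‖q‖)]
  nlinarith [mul_le_mul_of_nonneg_right h3 (mon_pos hw α).le]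

theorem core_exists (p q : ℂ) (hp : p ≠ 0) (hq : q ≠ 0) (β γ : Idx n) (hβ : β ≠ 0) (hγ : γ ≠ 0)
    (hd : ∀ i, β i = 0 ∨ γ i = 0) (h : Idx n → ℂ) (C B : ℝ) (hB : 0 ≤ B)
    (hh : ∀ α, ‖h α‖ ≤ C * B ^ deg α) :
    ∃ g : Idx n → ℂ, (∃ C' B' : ℝ, 0 ≤ B' ∧ ∀ α, ‖g α‖ ≤ C' * B' ^ deg α) ∧
      ∀ α, p * mulD p q β γ g (α + β) + q * mulD p q β γ g (α + γ) = h α := by
  obtain ⟨w, hwB, hpq⟩ := exists_weights β γ hβ hγ hd ‖p‖ ‖q‖ (norm_pos_iff.2 hp)
    (norm_pos_iff.2 hq) (max B 1) (le_max_right _ _)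
  have hw : ∀ i, 0 < w i := fun i =>
    lt_of_lt_of_le one_pos ((le_max_right B 1).trans (hwB i))
  set m : ℝ := ‖p‖ ^ 2 + ‖q‖ ^ 2 with hm
  have hm0 : 0 < m := by
    have := norm_pos_iff.2 hp
    positivity
  obtain ⟨g, hg1, hg2⟩ := solve (dg p q β γ) (c1 p q γ) (c1 q p β) (fun α => α - γ + β)
    (fun α => α - β + γ) h (mon w) (mon_pos hw) m hm0 (dominance p q β γ hβ hγ w hw hpq)
    (|C| / m) (by positivity) (fun α => by
      have e : |C| / m * (m * mon w α) = |C| * mon w α := by field_simp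
      rw [e]
      refine (hh α).trans ?_
      have h1 : B ^ deg α ≤ mon w α :=
        pow_le_mon hB (fun i => (le_max_left B 1).trans (hwB i)) α
      have h2 : 0 ≤ B ^ deg α := pow_nonneg hB _
      calc C * B ^ deg α ≤ |C| * B ^ deg α := mul_le_mul_of_nonneg_right (le_abs_self C) h2
        _ ≤ |C| * mon w α := mul_le_mul_of_nonneg_left h1 (abs_nonneg C))
  refine ⟨g, ⟨|C| / m, ∑ i, w i, Finset.sum_nonneg fun i _ => (hw i).le, fun α => ?_⟩, fun α => ?_⟩
  · refine (hg1 α).trans (mul_le_mul_of_nonneg_left ?_ (by positivity))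
    exact mon_le_pow (fun i => (hw i).le)
      (fun i => Finset.single_le_sum (fun j _ => (hw j).le) (Finset.mem_univ i)) α
  · rw [apply_eq p q β γ hd]
    exact hg2 α

theorem finite_deg (N : ℕ) : {α : Idx n | deg α ≤ N}.Finite := by
  refine (Set.finite_Iic (fun _ => N : Idx n)).subset fun α hα => ?_
  intro i
  exact (Finset.single_le_sum (f := α) (fun j _ => Nat.zero_le _) (Finset.mem_univ i)).trans hα

theorem core_unique (p q : ℂ) (hp : p ≠ 0) (hq : q ≠ 0) (β γ : Idx n) (hβ : β ≠ 0) (hγ : γ ≠ 0)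
    (hd : ∀ i, β i = 0 ∨ γ i = 0) (g : Idx n → ℂ) (C B : ℝ) (hB : 0 ≤ B)
    (hg : ∀ α, ‖g α‖ ≤ C * B ^ deg α)
    (h0 : ∀ α, p * mulD p q β γ g (α + β) + q * mulD p q β γ g (α + γ) = 0) : g = 0 := by
  obtain ⟨w, hwB, hpq⟩ := exists_weights β γ hβ hγ hd ‖p‖ ‖q‖ (norm_pos_iff.2 hp)
    (norm_pos_iff.2 hq) (2 * (B + 1)) (by linarith)
  have hw : ∀ i, 0 < w i := fun i => lt_of_lt_of_le (by linarith) (hwB i)
  have hm0 : 0 < ‖p‖ ^ 2 + ‖q‖ ^ 2 := by
    have := norm_pos_iff.2 hp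
    positivity
  refine unique (dg p q β γ) (c1 p q γ) (c1 q p β) (fun α => α - γ + β)
    (fun α => α - β + γ) (mon w) (mon_pos hw) _ hm0 (dominance p q β γ hβ hγ w hw hpq) g ?_ ?_
  · intro ε hε
    obtain ⟨N, hN⟩ := exists_pow_lt_of_lt_one (show 0 < ε / (|C| + 1) by positivity)
      (show (1 / 2 : ℝ) < 1 by norm_num)
    refine (finite_deg N).subset fun α hα => ?_
    by_contra hcon
    have hcon' : N < deg α := not_le.1 hcon
    have h1 : ε ≤ ‖g α‖ / mon w α := hα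
    rw [le_div_iff₀ (mon_pos hw α)] at h1
    have h2 : (2 * (B + 1)) ^ deg α ≤ mon w α := pow_le_mon (by linarith) hwB α
    have h3 : B ^ deg α ≤ (B + 1) ^ deg α := pow_le_pow_left₀ hB (by linarith) _
    have h4 : ‖g α‖ ≤ |C| * (B + 1) ^ deg α :=
      (hg α).trans ((mul_le_mul_of_nonneg_right (le_abs_self C) (pow_nonneg hB _)).trans
        (mul_le_mul_of_nonneg_left h3 (abs_nonneg C)))
    have h5 : 0 < (B + 1) ^ deg α := pow_pos (by linarith) _
    rw [mul_pow] at h2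
    have h6 : ε * (2 ^ deg α * (B + 1) ^ deg α) ≤ |C| * (B + 1) ^ deg α :=
      (mul_le_mul_of_nonneg_left h2 hε.le).trans (h1.trans h4)
    have h7 : ε * 2 ^ deg α ≤ |C| := by
      have : (ε * 2 ^ deg α) * (B + 1) ^ deg α ≤ |C| * (B + 1) ^ deg α := by
        rw [mul_assoc]; exact h6
      exact le_of_mul_le_mul_right this h5
    have h8 : (1 / 2 : ℝ) ^ deg α ≤ (1 / 2 : ℝ) ^ N :=
      pow_le_pow_of_le_one (by norm_num) (by norm_num) hcon'.le
    have h9 : (1 / 2 : ℝ) ^ deg α * 2 ^ deg α = 1 := by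
      rw [← mul_pow]; norm_num
    have h10 : (1 / 2 : ℝ) ^ deg α < ε / (|C| + 1) := lt_of_le_of_lt h8 hN
    rw [lt_div_iff₀ (by positivity)] at h10
    have h11 : 0 < (1 / 2 : ℝ) ^ deg α := by positivity
    have h12 : (1 / 2 : ℝ) ^ deg α * (ε * 2 ^ deg α) ≤ (1 / 2 : ℝ) ^ deg α * |C| :=
      mul_le_mul_of_nonneg_left h7 h11.le
    have h13 : (1 / 2 : ℝ) ^ deg α * (ε * 2 ^ deg α) = ε := by
      linear_combination ε * h9
    rw [h13] at h12
    nlinarith
  · intro α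
    rw [← apply_eq p q β γ hd]
    exact h0 α

end core

/-! ### The spaces and the map of the problem -/

section spaces

variable {n : ℕ}

/-- `∑ |a_α| R^|α| < ∞` for every `R ≥ 0`: the families of Taylor coefficients of entire functions. -/
def IsHol (a : Idx n → ℂ) : Prop := ∀ R : ℝ, 0 ≤ R → Summable fun α => ‖a α‖ * R ^ deg α

theorem IsHol.zero : IsHol (0 : Idx n → ℂ) := by
  intro R _
  simp

theorem IsHol.add {a b : Idx n → ℂ} (ha : IsHol a) (hb : IsHol b) : IsHol (a + b) := by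
  intro R hR
  refine Summable.of_nonneg_of_le (fun α => mul_nonneg (norm_nonneg _) (pow_nonneg hR _))
    (fun α => ?_) ((ha R hR).add (hb R hR))
  rw [← add_mul]
  exact mul_le_mul_of_nonneg_right (norm_add_le _ _) (pow_nonneg hR _)

theorem IsHol.smul (c : ℂ) {a : Idx n → ℂ} (ha : IsHol a) : IsHol (c • a) := by
  intro R hR
  refine ((ha R hR).mul_left ‖c‖).congr fun α => ?_
  rw [Pi.smul_apply, smul_eq_mul, norm_mul, mul_assoc]

/-- The space `H(ℂ^n)` of entire functions. An entire function is given by the family `a` of its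
Taylor coefficients, that is by a family with `∑ |a_α| R^|α| < ∞` for every `R`. -/
def Hol (n : ℕ) : Submodule ℂ (Idx n → ℂ) where
  carrier := {a | IsHol a}
  zero_mem' := IsHol.zero
  add_mem' := IsHol.add
  smul_mem' := fun c _ => IsHol.smul c

/-- The norms `∑ |a_α| R^|α|`; they define the topology of `H(ℂ^n)` (uniform convergence on
compact sets). -/
noncomputable def pnorm (R : ℝ) (a : Hol n) : ℝ := ∑' α, ‖a.1 α‖ * R ^ deg α

theorem pnorm_nonneg {R : ℝ} (hR : 0 ≤ R) (a : Hol n) : 0 ≤ pnorm R a :=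
  tsum_nonneg fun _ => mul_nonneg (norm_nonneg _) (pow_nonneg hR _)

theorem pnorm_mono {R S : ℝ} (hR : 0 ≤ R) (h : R ≤ S) (a : Hol n) : pnorm R a ≤ pnorm S a :=
  Summable.tsum_le_tsum (fun _ => mul_le_mul_of_nonneg_left (pow_le_pow_left₀ hR h _)
    (norm_nonneg _)) (a.2 R hR) (a.2 S (hR.trans h))

/-- `T` is continuous on `H(ℂ^n)` -/
def IsFunctional (T : Hol n →ₗ[ℂ] ℂ) : Prop :=
  ∃ C R : ℝ, 0 ≤ R ∧ ∀ a : Hol n, ‖T a‖ ≤ C * pnorm R a

theorem IsFunctional.zero : IsFunctional (0 : Hol n →ₗ[ℂ] ℂ) := ⟨0, 0, le_rfl, fun a => by simp⟩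

theorem IsFunctional.add {T S : Hol n →ₗ[ℂ] ℂ} (hT : IsFunctional T) (hS : IsFunctional S) :
    IsFunctional (T + S) := by
  obtain ⟨C, R, hR, hT⟩ := hT
  obtain ⟨D, Q, hQ, hS⟩ := hS
  refine ⟨|C| + |D|, max R Q, le_max_of_le_left hR, fun a => ?_⟩
  have h1 : C * pnorm R a ≤ |C| * pnorm (max R Q) a :=
    (mul_le_mul_of_nonneg_right (le_abs_self C) (pnorm_nonneg hR a)).trans
      (mul_le_mul_of_nonneg_left (pnorm_mono hR (le_max_left _ _) a) (abs_nonneg C))
  have h2 : D * pnorm Q a ≤ |D| * pnorm (max R Q) a :=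
    (mul_le_mul_of_nonneg_right (le_abs_self D) (pnorm_nonneg hQ a)).trans
      (mul_le_mul_of_nonneg_left (pnorm_mono hQ (le_max_right _ _) a) (abs_nonneg D))
  calc ‖(T + S) a‖ ≤ ‖T a‖ + ‖S a‖ := norm_add_le _ _
    _ ≤ (|C| + |D|) * pnorm (max R Q) a := by
      rw [add_mul]
      exact add_le_add ((hT a).trans h1) ((hS a).trans h2)

theorem IsFunctional.smul (c : ℂ) {T : Hol n →ₗ[ℂ] ℂ} (hT : IsFunctional T) :
    IsFunctional (c • T) := by
  obtain ⟨C, R, hR, hT⟩ := hT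
  refine ⟨‖c‖ * C, R, hR, fun a => ?_⟩
  rw [LinearMap.smul_apply, smul_eq_mul, norm_mul, mul_assoc]
  exact mul_le_mul_of_nonneg_left (hT a) (norm_nonneg _)

/-- `α! |f_α| ≤ C B^|α|` for some constants: the families of Taylor coefficients of entire functions
of exponential type. -/
def IsExp (f : Idx n → ℂ) : Prop :=
  ∃ C B : ℝ, 0 ≤ B ∧ ∀ α, (fac α : ℝ) * ‖f α‖ ≤ C * B ^ deg α

theorem IsExp.zero : IsExp (0 : Idx n → ℂ) := ⟨0, 0, le_rfl, fun α => by simp⟩

theorem IsExp.add {f g : Idx n → ℂ} (hf : IsExp f) (hg : IsExp g) : IsExp (f + g) := by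
  obtain ⟨C, R, hR, hf⟩ := hf
  obtain ⟨D, Q, hQ, hg⟩ := hg
  refine ⟨|C| + |D|, max R Q, le_max_of_le_left hR, fun α => ?_⟩
  have h1 : C * R ^ deg α ≤ |C| * max R Q ^ deg α :=
    (mul_le_mul_of_nonneg_right (le_abs_self C) (pow_nonneg hR _)).trans
      (mul_le_mul_of_nonneg_left (pow_le_pow_left₀ hR (le_max_left _ _) _) (abs_nonneg C))
  have h2 : D * Q ^ deg α ≤ |D| * max R Q ^ deg α :=
    (mul_le_mul_of_nonneg_right (le_abs_self D) (pow_nonneg hQ _)).trans
      (mul_le_mul_of_nonneg_left (pow_le_pow_left₀ hQ (le_max_right _ _) _) (abs_nonneg D))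
  have h3 : (fac α : ℝ) * ‖(f + g) α‖ ≤ fac α * ‖f α‖ + fac α * ‖g α‖ := by
    rw [← mul_add]
    exact mul_le_mul_of_nonneg_left (norm_add_le _ _) (Nat.cast_nonneg _)
  refine h3.trans ?_
  rw [add_mul]
  exact add_le_add ((hf α).trans h1) ((hg α).trans h2)

theorem IsExp.smul (c : ℂ) {f : Idx n → ℂ} (hf : IsExp f) : IsExp (c • f) := by
  obtain ⟨C, R, hR, hf⟩ := hf
  refine ⟨‖c‖ * C, R, hR, fun α => ?_⟩
  rw [Pi.smul_apply, smul_eq_mul, norm_mul, mul_left_comm, mul_assoc]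
  exact mul_le_mul_of_nonneg_left (hf α) (norm_nonneg _)

/-- The space `Exp(ℂ^n)` of entire functions `f` of exponential type, given by their Taylor
coefficients: `α! |f_α| ≤ C B^|α|` for some constants. -/
def Exp (n : ℕ) : Submodule ℂ (Idx n → ℂ) where
  carrier := {f | IsExp f}
  zero_mem' := IsExp.zero
  add_mem' := IsExp.add
  smul_mem' := fun c _ => IsExp.smul c

open Classical in
/-- The Taylor coefficients of the product `P a` of the polynomial `P = ∑ P_β z^β` (a finitely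
supported family of coefficients) and `a`: `(P a)_α = ∑_{β ≤ α} P_β a_{α-β}`. -/
noncomputable def mulFun (P : Idx n →₀ ℂ) (a : Idx n → ℂ) : Idx n → ℂ :=
  fun α => P.sum fun β p => if β ≤ α then p * a (α - β) else 0

theorem mulFun_add (P : Idx n →₀ ℂ) (a b : Idx n → ℂ) :
    mulFun P (a + b) = mulFun P a + mulFun P b := by
  funext α
  simp only [mulFun, Finsupp.sum, Pi.add_apply]
  rw [← Finset.sum_add_distrib]
  refine Finset.sum_congr rfl fun β _ => ?_
  split_ifs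
  · ring
  · simp

theorem mulFun_smul (P : Idx n →₀ ℂ) (c : ℂ) (a : Idx n → ℂ) :
    mulFun P (c • a) = (RingHom.id ℂ) c • mulFun P a := by
  funext α
  simp only [mulFun, Finsupp.sum, Pi.smul_apply, smul_eq_mul, RingHom.id_apply]
  rw [Finset.mul_sum]
  refine Finset.sum_congr rfl fun β _ => ?_
  split_ifs
  · ring
  · simp

/-- Multiplication by the polynomial `P`, as a linear map. -/
noncomputable def mulP (P : Idx n →₀ ℂ) : (Idx n → ℂ) →ₗ[ℂ] (Idx n → ℂ) where
  toFun := mulFun P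
  map_add' := mulFun_add P
  map_smul' := mulFun_smul P

/-- `P^*`: all coefficients are replaced by their complex conjugates. -/
noncomputable def conjP (P : Idx n →₀ ℂ) : Idx n →₀ ℂ :=
  P.mapRange (starRingEnd ℂ) (map_zero _)

theorem single_mem (α : Idx n) : (Pi.single α 1 : Idx n → ℂ) ∈ Hol n := by
  intro R _
  apply summable_of_ne_finset_zero (s := {α})
  intro x hx
  rw [Finset.mem_singleton] at hx
  rw [Pi.single_eq_of_ne hx]
  simp

/-- the monomial `ζ^α` as an element of `H(ℂ^n)` -/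
noncomputable def mono (α : Idx n) : Hol n := ⟨Pi.single α 1, single_mem α⟩

/-- The Taylor coefficients `T(ζ^α) / α!` of the Fourier–Borel transform of `T`. -/
noncomputable def fbFun (T : Hol n →ₗ[ℂ] ℂ) : Idx n → ℂ := fun α => T (mono α) / (fac α : ℂ)

theorem fbFun_add (T S : Hol n →ₗ[ℂ] ℂ) : fbFun (T + S) = fbFun T + fbFun S := by
  funext α
  simp only [fbFun, LinearMap.add_apply, Pi.add_apply]
  ring

theorem fbFun_smul (c : ℂ) (T : Hol n →ₗ[ℂ] ℂ) : fbFun (c • T) = (RingHom.id ℂ) c • fbFun T := by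
  funext α
  simp only [fbFun, LinearMap.smul_apply, Pi.smul_apply, smul_eq_mul, RingHom.id_apply]
  ring

/-- The Fourier–Borel transform `F(T)(z) = ⟨T(ζ), exp⟨ζ, z⟩⟩`; its Taylor coefficients are
`T(ζ^α) / α!`. -/
noncomputable def FB : (Hol n →ₗ[ℂ] ℂ) →ₗ[ℂ] (Idx n → ℂ) where
  toFun := fbFun
  map_add' := fbFun_add
  map_smul' := fbFun_smul

theorem pnorm_mono_eq (R : ℝ) (α : Idx n) : pnorm R (mono α) = R ^ deg α := by
  unfold pnorm
  rw [tsum_eq_single α]
  · show ‖(Pi.single α (1 : ℂ) : Idx n → ℂ) α‖ * R ^ deg α = _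
    rw [Pi.single_eq_same]; simp
  · intro x hx
    show ‖(Pi.single α (1 : ℂ) : Idx n → ℂ) x‖ * R ^ deg x = _
    rw [Pi.single_eq_of_ne hx]; simp

theorem facC (α : Idx n) : (fac α : ℂ) ≠ 0 := by exact_mod_cast (fac_pos α).ne'

theorem FB_mem {T : Hol n →ₗ[ℂ] ℂ} (hT : IsFunctional T) : FB T ∈ Exp n := by
  obtain ⟨C, R, hR, h⟩ := hT
  refine ⟨C, R, hR, fun α => ?_⟩
  have h1 := h (mono α)
  rw [pnorm_mono_eq] at h1
  show (fac α : ℝ) * ‖T (mono α) / (fac α : ℂ)‖ ≤ _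
  rw [norm_div, Complex.norm_natCast, mul_div_cancel₀ _ (by exact_mod_cast (fac_pos α).ne')]
  exact h1

/-! ### Proof -/

open Classical in
theorem mulP_binom (β γ : Idx n) (p q : ℂ) (a : Idx n → ℂ) (α : Idx n) :
    mulP (Finsupp.single β p + Finsupp.single γ q) a α =
      (if β ≤ α then p * a (α - β) else 0) + (if γ ≤ α then q * a (α - γ) else 0) := by
  have e : mulP (Finsupp.single β p + Finsupp.single γ q) a α =
      (Finsupp.single β p + Finsupp.single γ q : Idx n →₀ ℂ).sum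
        (fun β p => if β ≤ α then p * a (α - β) else 0) := rfl
  rw [e, Finsupp.sum_add_index', Finsupp.sum_single_index, Finsupp.sum_single_index]
  · simp
  · simp
  · intro x; simp
  · intro x y z
    split_ifs
    · ring
    · simp

theorem conjP_binom (β γ : Idx n) (p q : ℂ) :
    conjP (Finsupp.single β p + Finsupp.single γ q) =
      Finsupp.single β (starRingEnd ℂ p) + Finsupp.single γ (starRingEnd ℂ q) := by
  unfold conjP
  rw [Finsupp.mapRange_add (map_add _), Finsupp.mapRange_single, Finsupp.mapRange_single]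

open Classical in
theorem fac_mul_ite (β α : Idx n) (p : ℂ) (g : Idx n → ℂ) :
    (fac α : ℂ) * (if β ≤ α then p * g (α - β) else 0) =
      p * (dsc α β * ((fac (α - β) : ℂ) * g (α - β))) := by
  split_ifs with h
  · have : (fac α : ℂ) = fac (α - β) * dsc α β := by exact_mod_cast (fac_sub h).symm
    rw [this]; ring
  · rw [dsc_zero h]; simp

theorem fac_mulP (β γ : Idx n) (p q : ℂ) (g : Idx n → ℂ) (α : Idx n) :
    (fac α : ℂ) * mulP (conjP (Finsupp.single β p + Finsupp.single γ q)) g α =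
      mulD p q β γ (fun α => (fac α : ℂ) * g α) α := by
  rw [conjP_binom, mulP_binom, mul_add, fac_mul_ite, fac_mul_ite]
  rfl

theorem deg_add (α β : Idx n) : deg (α + β) = deg α + deg β := Finset.sum_add_distrib

theorem density (T : Hol n →ₗ[ℂ] ℂ) (hT : IsFunctional T) (h0 : ∀ α, T (mono α) = 0) :
    T = 0 := by
  classical
  obtain ⟨C, R, hR, h⟩ := hT
  ext a
  rw [LinearMap.zero_apply, ← norm_le_zero_iff]
  set F : Idx n → ℝ := fun α => ‖a.1 α‖ * R ^ deg α with hF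
  have hFs : Summable F := a.2 R hR
  have hlim : Tendsto (fun s : Finset (Idx n) => C * (∑' α, F α - ∑ α ∈ s, F α)) atTop
      (𝓝 (C * (∑' α, F α - ∑' α, F α))) :=
    (tendsto_const_nhds.sub hFs.hasSum).const_mul C
  rw [sub_self, mul_zero] at hlim
  refine ge_of_tendsto' hlim fun s => ?_
  set b : Hol n := a - ∑ α ∈ s, a.1 α • mono α with hb
  have hTb : T b = T a := by
    rw [hb, map_sub, map_sum]
    simp [h0]
  have hcoef : ∀ x, b.1 x = if x ∈ s then 0 else a.1 x := by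
    intro x
    have e1 : b.1 x = a.1 x - ∑ α ∈ s, a.1 α * (Pi.single α (1 : ℂ) : Idx n → ℂ) x := by
      rw [hb]
      simp [mono]
    rw [e1]
    have e2 : ∑ α ∈ s, a.1 α * (Pi.single α (1 : ℂ) : Idx n → ℂ) x = if x ∈ s then a.1 x else 0 := by
      simp [Pi.single_apply]
    rw [e2]
    split_ifs <;> simp
  have hpn : pnorm R b = ∑' α, F α - ∑ α ∈ s, F α := by
    have h1 : HasSum (fun x => if x ∈ s then F x else 0) (∑ x ∈ s, F x) := by
      have : HasSum (fun x => if x ∈ s then F x else 0) (∑ x ∈ s, if x ∈ s then F x else 0) :=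
        hasSum_sum_of_ne_finset_zero (fun x hx => by simp [hx])
      convert this using 1
      exact Finset.sum_congr rfl fun x hx => by simp [hx]
    have h2 : HasSum (fun x => F x - if x ∈ s then F x else 0) (∑' α, F α - ∑ x ∈ s, F x) :=
      hFs.hasSum.sub h1
    unfold pnorm
    rw [← h2.tsum_eq]
    refine tsum_congr fun x => ?_
    rw [hcoef x]
    split_ifs <;> simp [hF]
  rw [← hTb, ← hpn]
  exact h b

end spaces

section main

variable {n : ℕ}

theorem dsc_le (α β : Idx n) : (dsc α β : ℝ) ≤ fac β * 2 ^ deg α := by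
  have h : dsc α β ≤ fac β * 2 ^ deg α := by
    unfold dsc fac deg
    rw [← Finset.prod_pow_eq_pow_sum, ← Finset.prod_mul_distrib]
    refine Finset.prod_le_prod' fun _ _ => ?_
    rw [Nat.descFactorial_eq_factorial_mul_choose]
    exact Nat.mul_le_mul_left _ (Nat.choose_le_two_pow _ _)
  exact_mod_cast h

/-- exponential bounds -/
def EB (g : Idx n → ℂ) : Prop := ∃ C B : ℝ, 0 ≤ B ∧ ∀ α, ‖g α‖ ≤ C * B ^ deg α

theorem EB.norm {g : Idx n → ℂ} (h : EB g) :
    ∃ C B : ℝ, 0 ≤ C ∧ 1 ≤ B ∧ ∀ α, ‖g α‖ ≤ C * B ^ deg α := by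
  obtain ⟨C, B, hB, h⟩ := h
  refine ⟨|C|, max B 1, abs_nonneg C, le_max_right _ _, fun α => (h α).trans ?_⟩
  exact (mul_le_mul_of_nonneg_right (le_abs_self C) (pow_nonneg hB _)).trans
    (mul_le_mul_of_nonneg_left (pow_le_pow_left₀ hB (le_max_left _ _) _) (abs_nonneg C))

theorem EB.add {f g : Idx n → ℂ} (hf : EB f) (hg : EB g) : EB (fun α => f α + g α) := by
  obtain ⟨C, B, hC, hB, hf⟩ := hf.norm
  obtain ⟨D, A, hD, hA, hg⟩ := hg.norm
  refine ⟨C + D, max B A, le_max_of_le_left (by linarith), fun α => (norm_add_le _ _).trans ?_⟩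
  rw [add_mul]
  refine add_le_add ((hf α).trans ?_) ((hg α).trans ?_)
  · exact mul_le_mul_of_nonneg_left (pow_le_pow_left₀ (by linarith) (le_max_left _ _) _) hC
  · exact mul_le_mul_of_nonneg_left (pow_le_pow_left₀ (by linarith) (le_max_right _ _) _) hD

theorem EB.smul {f : Idx n → ℂ} (c : ℂ) (hf : EB f) : EB (fun α => c * f α) := by
  obtain ⟨C, B, hB, hf⟩ := hf
  refine ⟨‖c‖ * C, B, hB, fun α => ?_⟩
  rw [norm_mul, mul_assoc]
  exact mul_le_mul_of_nonneg_left (hf α) (norm_nonneg _)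

theorem EB.shift {f : Idx n → ℂ} (β : Idx n) (hf : EB f) : EB (fun α => f (α + β)) := by
  obtain ⟨C, B, hB, hf⟩ := hf
  refine ⟨C * B ^ deg β, B, hB, fun α => (hf _).trans (le_of_eq ?_)⟩
  rw [deg_add, pow_add]; ring

theorem deg_sub_le (α β : Idx n) : deg (α - β) ≤ deg α :=
  Finset.sum_le_sum fun _ _ => Nat.sub_le _ _

theorem EB.mulD {f : Idx n → ℂ} (p q : ℂ) (β γ : Idx n) (hf : EB f) :
    EB (fun α => CoprimeBinomials.mulD p q β γ f α) := by
  have key : ∀ β : Idx n, EB (fun α => (dsc α β : ℂ) * f (α - β)) := by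
    intro β
    obtain ⟨C, B, hC, hB, hf⟩ := hf.norm
    refine ⟨fac β * C, 2 * B, by linarith, fun α => ?_⟩
    rw [norm_mul, Complex.norm_natCast, mul_pow]
    have h1 := dsc_le α β
    have h2 : ‖f (α - β)‖ ≤ C * B ^ deg α :=
      (hf _).trans (mul_le_mul_of_nonneg_left (pow_le_pow_right₀ hB (deg_sub_le α β)) hC)
    calc (dsc α β : ℝ) * ‖f (α - β)‖ ≤ (fac β * 2 ^ deg α) * (C * B ^ deg α) :=
          mul_le_mul h1 h2 (norm_nonneg _) (by positivity)
      _ = _ := by ring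
  exact ((key β).smul _).add ((key γ).smul _)

theorem EB_of_Exp {f : Idx n → ℂ} (hf : f ∈ Exp n) : EB (fun α => (fac α : ℂ) * f α) := by
  obtain ⟨C, B, hB, hf⟩ := hf
  refine ⟨C, B, hB, fun α => ?_⟩
  rw [norm_mul, Complex.norm_natCast]
  exact hf α

theorem Exp_of_EB {g : Idx n → ℂ} (hg : EB g) : (fun α => g α / (fac α : ℂ)) ∈ Exp n := by
  obtain ⟨C, B, hB, hg⟩ := hg
  refine ⟨C, B, hB, fun α => ?_⟩
  rw [norm_div, Complex.norm_natCast, mul_div_cancel₀ _ (by exact_mod_cast (fac_pos α).ne')]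
  exact hg α

theorem summable_EB {r : Idx n → ℂ} (hr : EB r) (a : Hol n) : Summable fun α => a.1 α * r α := by
  obtain ⟨C, B, hB, hr⟩ := hr
  refine Summable.of_norm_bounded ((a.2 B hB).mul_left C) fun α => ?_
  rw [norm_mul]
  calc ‖a.1 α‖ * ‖r α‖ ≤ ‖a.1 α‖ * (C * B ^ deg α) :=
        mul_le_mul_of_nonneg_left (hr α) (norm_nonneg _)
    _ = _ := by ring

/-- the functional `a ↦ ∑ a_α r_α` -/
noncomputable def fun' (r : Idx n → ℂ) (hr : EB r) : Hol n →ₗ[ℂ] ℂ where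
  toFun a := ∑' α, a.1 α * r α
  map_add' a b := by
    rw [← (summable_EB hr a).tsum_add (summable_EB hr b)]
    exact tsum_congr fun α => add_mul _ _ _
  map_smul' c a := by
    rw [RingHom.id_apply, smul_eq_mul, ← tsum_mul_left]
    exact tsum_congr fun α => mul_assoc _ _ _

theorem fun'_mem (r : Idx n → ℂ) (hr : EB r) : IsFunctional (fun' r hr) := by
  obtain ⟨C, B, hB, h⟩ := id hr
  refine ⟨C, B, hB, fun a => ?_⟩
  show ‖∑' α, a.1 α * r α‖ ≤ C * ∑' α, ‖a.1 α‖ * B ^ deg α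
  rw [← tsum_mul_left]
  refine tsum_of_norm_bounded ((a.2 B hB).mul_left C).hasSum fun α => ?_
  rw [norm_mul]
  calc ‖a.1 α‖ * ‖r α‖ ≤ ‖a.1 α‖ * (C * B ^ deg α) :=
        mul_le_mul_of_nonneg_left (h α) (norm_nonneg _)
    _ = _ := by ring

theorem fun'_mono (r : Idx n → ℂ) (hr : EB r) (α : Idx n) : fun' r hr (mono α) = r α := by
  show ∑' x, (Pi.single α (1 : ℂ) : Idx n → ℂ) x * r x = _
  rw [tsum_eq_single α]
  · rw [Pi.single_eq_same, one_mul]
  · intro x hx
    rw [Pi.single_eq_of_ne hx, zero_mul]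

open Classical in
theorem tsum_shift (β : Idx n) (p : ℂ) (r : Idx n → ℂ) (hr : EB r) (a : Hol n) :
    HasSum (fun α => (if β ≤ α then p * a.1 (α - β) else 0) * r α)
      (∑' α, a.1 α * (p * r (α + β))) := by
  have hinj : Function.Injective (fun α : Idx n => α + β) := add_left_injective β
  have h1 : HasSum (fun α => a.1 α * (p * r (α + β))) (∑' α, a.1 α * (p * r (α + β))) :=
    (summable_EB ((hr.shift β).smul p) a).hasSum
  rw [← hinj.hasSum_iff]
  · have e : ((fun α => (if β ≤ α then p * a.1 (α - β) else 0) * r α) ∘ fun α : Idx n => α + β) =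
        fun α => a.1 α * (p * r (α + β)) := by
      funext α
      show (if β ≤ α + β then p * a.1 (α + β - β) else 0) * r (α + β) = _
      rw [if_pos le_add_self, add_tsub_cancel_right]
      ring
    rw [e]
    exact h1
  · intro x hx
    rw [if_neg, zero_mul]
    intro hle
    exact hx ⟨x - β, tsub_add_cancel_of_le hle⟩

theorem inj_core (β γ : Idx n) (hβ : β ≠ 0) (hγ : γ ≠ 0) (hd : ∀ i, β i = 0 ∨ γ i = 0)
    (p q : ℂ) (hp : p ≠ 0) (hq : q ≠ 0) (L : Hol n →ₗ[ℂ] ℂ) (hL : IsFunctional L)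
    (h0 : ∀ α, p * L (mono (α + β)) + q * L (mono (α + γ)) = 0) (g : Idx n → ℂ) (hg : IsExp g)
    (hgT : ∀ α, mulFun (conjP (Finsupp.single β p + Finsupp.single γ q)) g α =
      L (mono α) / (fac α : ℂ)) : L = 0 := by
  obtain ⟨C, B, hB, hgb⟩ := EB_of_Exp hg
  have hr : ∀ α, L (mono α) = mulD p q β γ (fun α => (fac α : ℂ) * g α) α := by
    intro α
    rw [← fac_mulP β γ p q g α]
    show _ = (fac α : ℂ) * mulFun (conjP (Finsupp.single β p + Finsupp.single γ q)) g α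
    rw [hgT α, mul_div_cancel₀ _ (facC α)]
  have hg0 := core_unique p q hp hq β γ hβ hγ hd (fun α => (fac α : ℂ) * g α) C B hB hgb
    (fun α => by rw [← hr, ← hr]; exact h0 α)
  apply density L hL
  intro α
  rw [hr α, hg0]
  simp [mulD]

theorem mulFun_single (β γ : Idx n) (p q : ℂ) (α : Idx n) :
    mulFun (Finsupp.single β p + Finsupp.single γ q) (Pi.single α 1) =
      p • (Pi.single (α + β) (1 : ℂ) : Idx n → ℂ) + q • (Pi.single (α + γ) (1 : ℂ) : Idx n → ℂ) := by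
  classical
  funext x
  have e := mulP_binom β γ p q (Pi.single α 1) x
  have e2 : mulFun (Finsupp.single β p + Finsupp.single γ q) (Pi.single α 1) x =
      mulP (Finsupp.single β p + Finsupp.single γ q) (Pi.single α 1) x := rfl
  rw [e2, e]
  have key : ∀ (δ : Idx n) (s : ℂ), s * (Pi.single (α + δ) (1 : ℂ) : Idx n → ℂ) x =
      if δ ≤ x then s * (Pi.single α (1 : ℂ) : Idx n → ℂ) (x - δ) else 0 := by
    intro δ s
    by_cases h : δ ≤ x
    · rw [if_pos h]
      congr 1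
      by_cases h2 : x = α + δ
      · subst h2
        rw [add_tsub_cancel_right, Pi.single_eq_same, Pi.single_eq_same]
      · have h3 : x - δ ≠ α := fun h3 => h2 (by rw [← h3, tsub_add_cancel_of_le h])
        rw [Pi.single_eq_of_ne h2, Pi.single_eq_of_ne h3]
    · rw [if_neg h]
      have h2 : x ≠ α + δ := fun h2 => h (by rw [h2]; exact le_add_self)
      rw [Pi.single_eq_of_ne h2, mul_zero]
  show _ = p * (Pi.single (α + β) (1 : ℂ) : Idx n → ℂ) x +
    q * (Pi.single (α + γ) (1 : ℂ) : Idx n → ℂ) x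
  rw [key β p, key γ q]

theorem surj_core (β γ : Idx n) (hβ : β ≠ 0) (hγ : γ ≠ 0) (hd : ∀ i, β i = 0 ∨ γ i = 0)
    (p q : ℂ) (hp : p ≠ 0) (hq : q ≠ 0) (f : Idx n → ℂ) (hf : IsExp f) :
    ∃ r : Idx n → ℂ, EB r ∧ (∀ α, p * r (α + β) + q * r (α + γ) = 0) ∧
      ∃ g, IsExp g ∧ ∀ α, r α / (fac α : ℂ) - f α =
        mulFun (conjP (Finsupp.single β p + Finsupp.single γ q)) g α := by
  have hb := EB_of_Exp (show f ∈ Exp n from hf)
  set b : Idx n → ℂ := fun α => (fac α : ℂ) * f α with hbdef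
  obtain ⟨C, B, hB, hh⟩ := ((hb.shift β).smul p).add ((hb.shift γ).smul q)
  obtain ⟨g, hg, hgh⟩ := core_exists p q hp hq β γ hβ hγ hd _ C B hB hh
  have hg' : EB g := hg
  refine ⟨fun α => b α + (-1) * mulD p q β γ g α, hb.add ((hg'.mulD p q β γ).smul (-1)), ?_,
    fun α => ((-1) * g α) / (fac α : ℂ), Exp_of_EB (hg'.smul (-1)), ?_⟩
  · intro α
    have := hgh α
    show p * (b (α + β) + (-1) * mulD p q β γ g (α + β)) +
      q * (b (α + γ) + (-1) * mulD p q β γ g (α + γ)) = 0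
    linear_combination -this
  · intro α
    have h1 := fac_mulP β γ p q (fun α => ((-1) * g α) / (fac α : ℂ)) α
    have h2 : (fun α => (fac α : ℂ) * (((-1) * g α) / (fac α : ℂ))) = fun α => (-1) * g α := by
      funext x
      rw [mul_div_cancel₀ _ (facC x)]
    rw [h2] at h1
    apply mul_left_cancel₀ (facC α)
    refine Eq.trans ?_ h1.symm
    rw [mul_sub, mul_div_cancel₀ _ (facC α)]
    show b α + (-1) * mulD p q β γ g α - b α = _
    unfold mulD
    ring

/-- An analytic functional on `H(ℂ^n)`: a map `T` which is linear on `H(ℂ^n)` and continuous there,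
`|T a| ≤ C ∑ |a_α| R^|α|`. (Only the values on `H(ℂ^n)` matter.) -/
structure Functional (n : ℕ) where
  /-- the values -/
  toFun : (Idx n → ℂ) → ℂ
  map_add : ∀ a b : Idx n → ℂ, IsHol a → IsHol b → toFun (a + b) = toFun a + toFun b
  map_smul : ∀ (c : ℂ) (a : Idx n → ℂ), IsHol a → toFun (c • a) = c * toFun a
  bound : ∃ C R : ℝ, 0 ≤ R ∧ ∀ a : Idx n → ℂ, IsHol a →
    ‖toFun a‖ ≤ C * ∑' α, ‖a α‖ * R ^ deg α

/-- `T ∈ (P · H(ℂ^n))^⊥`, that is `T(P a) = 0` for all `a ∈ H(ℂ^n)`. -/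
def Annihilates (T : Functional n) (P : Idx n →₀ ℂ) : Prop :=
  ∀ a : Idx n → ℂ, IsHol a → T.toFun (mulFun P a) = 0

/-- The Fourier–Borel transform `F(T)(z) = ⟨T(ζ), exp⟨ζ, z⟩⟩`, given by its Taylor coefficients
`T(ζ^α) / α!`. -/
noncomputable def fourierBorel (T : Functional n) (α : Idx n) : ℂ :=
  T.toFun (Pi.single α 1) / (fac α : ℂ)

/-- `f` and `f'` have the same class in `Exp(ℂ^n) / P^* · Exp(ℂ^n)`. -/
def SameClass (P : Idx n →₀ ℂ) (f f' : Idx n → ℂ) : Prop :=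
  ∃ g : Idx n → ℂ, IsExp g ∧ ∀ α, f α - f' α = mulFun (conjP P) g α

/-- `Φ_P : (P · H(ℂ^n))^⊥ → Exp(ℂ^n) / P^* · Exp(ℂ^n)`, `T ↦ class of F(T)`, is injective. -/
def PhiInjective (P : Idx n →₀ ℂ) : Prop :=
  ∀ T S : Functional n, Annihilates T P → Annihilates S P →
    SameClass P (fourierBorel T) (fourierBorel S) → ∀ a : Idx n → ℂ, IsHol a → T.toFun a = S.toFun a

/-- `Φ_P : (P · H(ℂ^n))^⊥ → Exp(ℂ^n) / P^* · Exp(ℂ^n)`, `T ↦ class of F(T)`, is surjective. -/
def PhiSurjective (P : Idx n →₀ ℂ) : Prop :=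
  ∀ f : Idx n → ℂ, IsExp f → ∃ T : Functional n, Annihilates T P ∧ SameClass P (fourierBorel T) f

/-- the difference of two functionals as a linear map on `Hol n` -/
noncomputable def toLin (T S : Functional n) : Hol n →ₗ[ℂ] ℂ where
  toFun a := T.toFun a.1 - S.toFun a.1
  map_add' a b := by
    show T.toFun (a.1 + b.1) - S.toFun (a.1 + b.1) = _
    rw [T.map_add _ _ a.2 b.2, S.map_add _ _ a.2 b.2]; ring
  map_smul' c a := by
    show T.toFun (c • a.1) - S.toFun (c • a.1) = c * (T.toFun a.1 - S.toFun a.1)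
    rw [T.map_smul _ _ a.2, S.map_smul _ _ a.2]; ring

theorem toLin_isFunctional (T S : Functional n) : IsFunctional (toLin T S) := by
  obtain ⟨C, R, hR, hT⟩ := T.bound
  obtain ⟨D, Q, hQ, hS⟩ := S.bound
  refine ⟨|C| + |D|, max R Q, le_max_of_le_left hR, fun a => ?_⟩
  have h1 : C * pnorm R a ≤ |C| * pnorm (max R Q) a :=
    (mul_le_mul_of_nonneg_right (le_abs_self C) (pnorm_nonneg hR a)).trans
      (mul_le_mul_of_nonneg_left (pnorm_mono hR (le_max_left _ _) a) (abs_nonneg C))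
  have h2 : D * pnorm Q a ≤ |D| * pnorm (max R Q) a :=
    (mul_le_mul_of_nonneg_right (le_abs_self D) (pnorm_nonneg hQ a)).trans
      (mul_le_mul_of_nonneg_left (pnorm_mono hQ (le_max_right _ _) a) (abs_nonneg D))
  calc ‖toLin T S a‖ ≤ ‖T.toFun a.1‖ + ‖S.toFun a.1‖ := norm_sub_le _ _
    _ ≤ (|C| + |D|) * pnorm (max R Q) a := by
      rw [add_mul]
      exact add_le_add ((hT a.1 a.2).trans h1) ((hS a.1 a.2).trans h2)

theorem annih_mono (T : Functional n) (β γ : Idx n) (p q : ℂ)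
    (hT : Annihilates T (Finsupp.single β p + Finsupp.single γ q)) (α : Idx n) :
    p * T.toFun (Pi.single (α + β) 1) + q * T.toFun (Pi.single (α + γ) 1) = 0 := by
  have h := hT (Pi.single α 1) (single_mem α)
  rw [mulFun_single, T.map_add _ _ (IsHol.smul p (single_mem (α + β)))
    (IsHol.smul q (single_mem (α + γ))), T.map_smul _ _ (single_mem (α + β)),
    T.map_smul _ _ (single_mem (α + γ))] at h
  exact h

/-- Let `P = p z^β + q z^γ` with `p, q ≠ 0` and non-constant monomials `z^β`, `z^γ` which have no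
variable in common. Then the map
`Φ_P : (P · H(ℂ^n))^⊥ → Exp(ℂ^n) / P^* · Exp(ℂ^n)`, `T ↦ class of F(T)`, is bijective. -/
theorem result {n : ℕ} (β γ : Idx n) (hβ : β ≠ 0) (hγ : γ ≠ 0) (hd : ∀ i, β i = 0 ∨ γ i = 0)
    (p q : ℂ) (hp : p ≠ 0) (hq : q ≠ 0) :
    PhiInjective (Finsupp.single β p + Finsupp.single γ q) ∧
      PhiSurjective (Finsupp.single β p + Finsupp.single γ q) := by
  classical
  constructor
  · rintro T S hT hS ⟨g, hg, hgTS⟩ a ha
    have h := inj_core β γ hβ hγ hd p q hp hq (toLin T S) (toLin_isFunctional T S) (fun α => by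
      have h1 := annih_mono T β γ p q hT α
      have h2 := annih_mono S β γ p q hS α
      show p * (T.toFun (Pi.single (α + β) 1) - S.toFun (Pi.single (α + β) 1)) +
        q * (T.toFun (Pi.single (α + γ) 1) - S.toFun (Pi.single (α + γ) 1)) = 0
      linear_combination h1 - h2) g hg (fun α => by
      rw [← hgTS α]
      show T.toFun (Pi.single α 1) / (fac α : ℂ) - S.toFun (Pi.single α 1) / (fac α : ℂ) =
        (T.toFun (Pi.single α 1) - S.toFun (Pi.single α 1)) / (fac α : ℂ)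
      ring)
    have h2 : toLin T S ⟨a, ha⟩ = 0 := by rw [h]; rfl
    exact sub_eq_zero.1 h2
  · intro f hf
    obtain ⟨r, hr, hr0, g, hg, hgf⟩ := surj_core β γ hβ hγ hd p q hp hq f hf
    refine ⟨⟨fun a => ∑' α, a α * r α, ?_, ?_, ?_⟩, ?_, g, hg, ?_⟩
    · intro a b ha hb
      exact (fun' r hr).map_add ⟨a, ha⟩ ⟨b, hb⟩
    · intro c a ha
      exact (fun' r hr).map_smul c ⟨a, ha⟩
    · obtain ⟨C, R, hR, h⟩ := fun'_mem r hr
      exact ⟨C, R, hR, fun a ha => h ⟨a, ha⟩⟩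
    · intro a ha
      show ∑' α, mulFun (Finsupp.single β p + Finsupp.single γ q) a α * r α = 0
      have h1 := (tsum_shift β p r hr ⟨a, ha⟩).add (tsum_shift γ q r hr ⟨a, ha⟩)
      have h2 : (fun α => mulFun (Finsupp.single β p + Finsupp.single γ q) a α * r α) = fun α =>
          (if β ≤ α then p * a (α - β) else 0) * r α +
          (if γ ≤ α then q * a (α - γ) else 0) * r α := by
        funext α
        have e : mulFun (Finsupp.single β p + Finsupp.single γ q) a α =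
          mulP (Finsupp.single β p + Finsupp.single γ q) a α := rfl
        rw [e, mulP_binom, add_mul]
      rw [h2, h1.tsum_eq, ← (summable_EB ((hr.shift β).smul p) ⟨a, ha⟩).tsum_add
        (summable_EB ((hr.shift γ).smul q) ⟨a, ha⟩)]
      rw [← tsum_zero]
      refine tsum_congr fun α => ?_
      linear_combination a α * hr0 α
    · intro α
      rw [← hgf α]
      show (∑' x, (Pi.single α (1 : ℂ) : Idx n → ℂ) x * r x) / (fac α : ℂ) - f α = _
      have := fun'_mono r hr α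
      have h3 : ∑' x, (Pi.single α (1 : ℂ) : Idx n → ℂ) x * r x = r α := this
      rw [h3]

end main

end Pool.Agent.Results.MP_6e521b_an.CoprimeBinomials
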